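import Pool.Agent.W2helper14.SH.C
import Pool.Agent.W2helper14.RB.Gen

set_option autoImplicit false

/-!
The Bateman-Horn formula in short intervals for all systems, in terms of `count` and `mainTerm`.
-/

namespace Pool.Agent.W2helper14.SH

open Filter MeasureTheory Polynomial Topology Pool.Agent.W2helper14.RB

theorem card_diff (P : ℕ → Prop) (y x : ℕ) :
    ((@Finset.filter ℕ P (Classical.decPred _) (Finset.Icc 1 (y + x))).card : ℝ) =
      (@Finset.filter ℕ P (Classical.decPred _) (Finset.Icc 1 y)).card +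
      (@Finset.filter ℕ (fun n => P (y + n)) (Classical.decPred _) (Finset.Icc 1 x)).card := by
  classical
  rw [Pool.Agent.W2helper64.BH.card_split P y (y + x) (by omega)]
  congr 2
  refine Finset.card_nbij' (fun n => n - y) (fun m => y + m) ?_ ?_ ?_ ?_
  · intro n hn
    have h := Pool.Agent.W2helper64.RK.mf'.mp hn
    rw [Finset.mem_Ioc] at h
    refine Pool.Agent.W2helper64.RK.mf'.mpr ⟨?_, ?_⟩
    · rw [Finset.mem_Icc]
      dsimp only
      omega
    · have e : y + (n - y) = n := by omega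
      rw [e]
      exact h.2
  · intro m hm
    have h := Pool.Agent.W2helper64.RK.mf'.mp hm
    rw [Finset.mem_Icc] at h
    refine Pool.Agent.W2helper64.RK.mf'.mpr ⟨?_, h.2⟩
    rw [Finset.mem_Ioc]
    dsimp only
    omega
  · intro n hn
    have h := (Pool.Agent.W2helper64.RK.mf'.mp hn).1
    rw [Finset.mem_Ioc] at h
    dsimp only
    omega
  · intro m hm
    dsimp only
    omega

theorem cnt_diff {g : ℕ} (f : Fin g → ℤ[X]) (a : (p : Nat.Primes) → ZMod (p : ℕ)) (y x : ℕ) :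
    (count f a (y + x) : ℝ) - count f a y = Pool.Agent.W2helper64.BH.cnt (sh f y) a x := by
  have h5 : ∀ x : ℕ, count f a x = Pool.Agent.W2helper64.BH.cnt f a x := by
    intro x
    unfold count Pool.Agent.W2helper64.BH.cnt
    congr 1
    ext n
    rw [Pool.Agent.W2helper64.RK.mf', Pool.Agent.W2helper64.RK.mf']
    rfl
  rw [h5, h5]
  unfold Pool.Agent.W2helper64.BH.cnt
  rw [card_diff, add_sub_cancel_left]
  congr 2
  ext n
  rw [Pool.Agent.W2helper64.RK.mf', Pool.Agent.W2helper64.RK.mf']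
  refine and_congr_right fun _ => ?_
  unfold Pool.Agent.W2helper64.BH.AllR
  simp only [sh_eval_nat]

theorem main_diff {g : ℕ} (f : Fin g → ℤ[X]) (y x : ℕ) :
    mainTerm f (y + x) - mainTerm f y = Pool.Agent.W2helper64.BH.HH (sh f y) x := by
  classical
  have h6 : ∀ x : ℕ, mainTerm f x = ∑ n ∈ Finset.Icc 1 x, if (∀ i, 8 ≤ (f i).eval (n : ℤ)) then
      ∏ i, (1 / Real.log (((f i).eval (n : ℤ) : ℤ) : ℝ)) else 0 := by
    intro x
    unfold mainTerm
    rw [← Finset.sum_filter]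
  have h7 : Pool.Agent.W2helper64.BH.HH (sh f y) x = ∑ n ∈ Finset.Icc 1 x,
      if (∀ i, 8 ≤ (f i).eval ((y + n : ℕ) : ℤ)) then
      ∏ i, (1 / Real.log (((f i).eval ((y + n : ℕ) : ℤ) : ℤ) : ℝ)) else 0 := by
    unfold Pool.Agent.W2helper64.BH.HH
    rw [← Finset.sum_filter]
    refine Finset.sum_congr ?_ fun n _ => ?_
    · ext n
      rw [Pool.Agent.W2helper64.RK.mf', Pool.Agent.W2helper64.RK.mf']
      simp only [sh_eval_nat]
    · simp only [sh_eval_nat]
  rw [h6, h6, h7]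
  have h8 : Finset.Icc 1 (y + x) = Finset.Icc 1 y ∪ Finset.Ioc y (y + x) := by
    ext n
    simp only [Finset.mem_union, Finset.mem_Icc, Finset.mem_Ioc]
    omega
  have h9 : Disjoint (Finset.Icc 1 y) (Finset.Ioc y (y + x)) := by
    rw [Finset.disjoint_left]
    intro n h1 h2
    rw [Finset.mem_Icc] at h1
    rw [Finset.mem_Ioc] at h2
    omega
  rw [h8, Finset.sum_union h9, add_sub_cancel_left]
  refine Finset.sum_nbij' (fun n => n - y) (fun m => y + m) ?_ ?_ ?_ ?_ ?_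
  · intro n hn
    rw [Finset.mem_Ioc] at hn
    rw [Finset.mem_Icc]
    omega
  · intro m hm
    rw [Finset.mem_Icc] at hm
    rw [Finset.mem_Ioc]
    omega
  · intro n hn
    rw [Finset.mem_Ioc] at hn
    omega
  · intro m hm
    omega
  · intro n hn
    rw [Finset.mem_Ioc] at hn
    have e : y + (n - y) = n := by omega
    rw [e]

theorem short_general : ∀ᵐ a ∂law, ∀ (g : ℕ) (f : Fin g → ℤ[X]), Function.Injective f →
    (∀ i, 0 < (f i).natDegree ∧ 0 < (f i).leadingCoeff) → ∀ S : ℝ, Tendsto (series f a) atTop (𝓝 S) →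
      ∀ δ : ℝ, 0 < δ → ∀ U : ℕ, ∀ᶠ y : ℕ in atTop, ∀ H : ℕ, (y : ℝ) ^ δ ≤ H →
        |((count f a (y + H) : ℝ) - count f a y) - S * (mainTerm f (y + H) - mainTerm f y)| ≤
          H / Real.log ((y : ℝ) + H) ^ U := by
  show ∀ᵐ a ∂Pool.Agent.W2helper64.RS.law, _
  rw [ae_all_iff]
  intro g
  rw [ae_all_iff]
  intro f
  by_cases hf : Function.Injective f ∧ ∀ i, 0 < (f i).natDegree ∧ 0 < (f i).leadingCoeff
  swap
  · exact Eventually.of_forall fun a h1 h2 => absurd ⟨h1, h2⟩ hf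
  obtain ⟨hinj, hfacts⟩ := hf
  have hd : ∀ i, 0 < (f i).natDegree := fun i => (hfacts i).1
  have hl : ∀ i, 0 < (f i).leadingCoeff := fun i => (hfacts i).2
  have h1 : ∀ᵐ a ∂Pool.Agent.W2helper64.RS.law, ∀ K U : ℕ, ∀ S C : ℝ, 0 ≤ C → 0 ≤ S →
      (∀ᶠ z : ℕ in atTop, |Pool.Agent.W2helper64.BH.PP f a z / Pool.Agent.W2helper64.RS.V z ^ g - S| ≤
        C * (z : ℝ) ^ (-(1 / 4) : ℝ)) →
      ∃ M : ℝ, ∀ᶠ x : ℕ in atTop, ∀ y : ℕ, y ≤ x ^ K →
        |(Pool.Agent.W2helper64.BH.cnt (sh f y) a x : ℝ) - S * Pool.Agent.W2helper64.BH.HH (sh f y) x| ≤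
          M * ((x : ℝ) / Real.log x ^ U) := by
    rw [ae_all_iff]
    intro K
    rw [ae_all_iff]
    intro U
    exact ae_short f hd hl hinj K U
  filter_upwards [h1, Pool.Agent.W2helper64.BH.ae_SS f (∑ i, (f i).natDegree + 1) (by omega) hd hl (by omega)
    hinj] with a h2 h3 _ _
  obtain ⟨S', hS0, hS1, hS2, C, hC, hrate⟩ := h3
  intro S hSlim δ hδ U
  have hSS : S = S' := by
    refine tendsto_nhds_unique hSlim (hS1.congr fun z => ?_)
    rw [series_eq]
  subst hSS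
  obtain ⟨M, hM⟩ := h2 ⌈1 / δ⌉₊ (U + 1) S C hC hS0 hrate
  obtain ⟨x0, hx0⟩ := eventually_atTop.mp hM
  have hyδ : Tendsto (fun y : ℕ => (y : ℝ) ^ δ) atTop atTop :=
    (tendsto_rpow_atTop hδ).comp tendsto_natCast_atTop_atTop
  have hlog : Tendsto (fun y : ℕ => Real.log ((y : ℝ) ^ δ)) atTop atTop := Real.tendsto_log_atTop.comp hyδ
  filter_upwards [hyδ.eventually_ge_atTop ((x0 : ℝ) + 2), eventually_ge_atTop 8,
    hlog.eventually_ge_atTop (|M| * (2 + 1 / δ) ^ U), hlog.eventually_ge_atTop 1] with y hy1 hy8 hyM hyl H hH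
  have hy0 : (0 : ℝ) < y := by exact_mod_cast (by omega : 0 < y)
  have hHr : (x0 : ℝ) + 2 ≤ H := hy1.trans hH
  have hHx : x0 ≤ H := by
    have : (x0 : ℝ) ≤ H := by linarith
    exact_mod_cast this
  have hx00 : (0 : ℝ) ≤ x0 := Nat.cast_nonneg _
  have hH2 : (2 : ℝ) ≤ H := by linarith
  have hH0 : (0 : ℝ) < H := by linarith
  have h4 : (y : ℝ) ≤ (H : ℝ) ^ (1 / δ) := by
    have h5 := Real.rpow_le_rpow (by positivity) hH (by positivity : 0 ≤ 1 / δ)
    rwa [← Real.rpow_mul hy0.le, mul_one_div_cancel hδ.ne', Real.rpow_one] at h5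
  -- `y ≤ H ^ K`
  have hyK : y ≤ H ^ ⌈1 / δ⌉₊ := by
    have h6 : (H : ℝ) ^ (1 / δ) ≤ (H : ℝ) ^ ((⌈1 / δ⌉₊ : ℕ) : ℝ) :=
      Real.rpow_le_rpow_of_exponent_le (by linarith) (Nat.le_ceil _)
    rw [Real.rpow_natCast] at h6
    exact_mod_cast h4.trans h6
  have h7 := hx0 H hHx y hyK
  rw [cnt_diff, main_diff]
  refine h7.trans ?_
  -- the logarithms
  have hlH : Real.log ((y : ℝ) ^ δ) ≤ Real.log H := Real.log_le_log (by positivity) hH
  have hlH1 : 1 ≤ Real.log (H : ℝ) := hyl.trans hlH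
  have hlHM : |M| * (2 + 1 / δ) ^ U ≤ Real.log (H : ℝ) := hyM.trans hlH
  have hly : Real.log (y : ℝ) ≤ 1 / δ * Real.log H := by
    rw [← Real.log_rpow hH0]
    exact Real.log_le_log hy0 h4
  have hsum : Real.log ((y : ℝ) + H) ≤ (2 + 1 / δ) * Real.log H := by
    have e1 : (y : ℝ) + H ≤ 2 * (y * H) := by
      have : (1 : ℝ) ≤ y := by exact_mod_cast (by omega : 1 ≤ y)
      nlinarith
    have e2 : Real.log ((y : ℝ) + H) ≤ Real.log 2 + (Real.log y + Real.log H) := by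
      rw [← Real.log_mul hy0.ne' hH0.ne', ← Real.log_mul (by norm_num) (by positivity)]
      exact Real.log_le_log (by positivity) e1
    have e3 : Real.log 2 ≤ Real.log H := Real.log_le_log (by norm_num) hH2
    linarith
  have hpos : 0 < Real.log ((y : ℝ) + H) := Real.log_pos (by
    have : (1 : ℝ) ≤ y := by exact_mod_cast (by omega : 1 ≤ y)
    linarith)
  have h8 : Real.log ((y : ℝ) + H) ^ U ≤ (2 + 1 / δ) ^ U * Real.log H ^ U := by
    rw [← mul_pow]
    exact pow_le_pow_left₀ hpos.le hsum U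
  have hlH0 : 0 < Real.log (H : ℝ) := by linarith
  rw [mul_div_assoc', div_le_div_iff₀ (by positivity) (by positivity)]
  calc M * H * Real.log ((y : ℝ) + H) ^ U ≤ |M| * H * ((2 + 1 / δ) ^ U * Real.log H ^ U) := by
        gcongr
        exact le_abs_self M
    _ = H * (|M| * (2 + 1 / δ) ^ U) * Real.log H ^ U := by ring
    _ ≤ H * Real.log H * Real.log H ^ U := by gcongr
    _ = H * Real.log H ^ (U + 1) := by ring

end Pool.Agent.W2helper14.SH
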