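import Pool.Agent.W2helper64.GB.Gen

set_option autoImplicit false
set_option linter.unusedSectionVars false

/-!
Systems of polynomials in short intervals: shifted systems and the concentration, simultaneously for all
starting points. The proof of `law_badS` follows `BH.law_bad` of helper64, with a smaller probability.
-/

namespace Pool.Agent.W2helper14.SH

open Finset Filter Topology Polynomial MeasureTheory Pool.Agent.W2helper64.RS Pool.Agent.W2helper64.RK
open Pool.Agent.W2helper64.BH Pool.Agent.W2helper64.GB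
open Pool.Agent.H373R2.T7 (pz nuB PerB sys_count nuB_le mem_pz)

/-- the shifted system `f (X + y)` -/
noncomputable def sh {g : ℕ} (f : Fin g → ℤ[X]) (y : ℕ) : Fin g → ℤ[X] := fun i => (f i).comp (X + C (y : ℤ))

theorem sh_eval {g : ℕ} (f : Fin g → ℤ[X]) (y : ℕ) (i : Fin g) (z : ℤ) : (sh f y i).eval z = (f i).eval (z + y) := by
  unfold sh
  rw [eval_comp, eval_add, eval_X, eval_C]

theorem sh_eval_nat {g : ℕ} (f : Fin g → ℤ[X]) (y : ℕ) (i : Fin g) (n : ℕ) :
    (sh f y i).eval (n : ℤ) = (f i).eval ((y + n : ℕ) : ℤ) := by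
  rw [sh_eval]
  push_cast
  rw [add_comm]

theorem sh_deg {g : ℕ} (f : Fin g → ℤ[X]) (y : ℕ) (i : Fin g) : (sh f y i).natDegree = (f i).natDegree := by
  unfold sh
  rw [natDegree_comp, natDegree_X_add_C, mul_one]

theorem sh_lead {g : ℕ} (f : Fin g → ℤ[X]) (y : ℕ) (i : Fin g) : (sh f y i).leadingCoeff = (f i).leadingCoeff := by
  unfold sh
  rw [leadingCoeff_comp (by rw [natDegree_X_add_C]; norm_num), leadingCoeff_X_add_C, one_pow, mul_one]

theorem lam_sh {g : ℕ} (f : Fin g → ℤ[X]) (y : ℕ) (i : Fin g) (n : ℕ) : lam (sh f y) i n = lam f i (y + n) := by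
  unfold lam
  rw [sh_eval_nat]

theorem hh_sh {g : ℕ} (f : Fin g → ℤ[X]) (y n : ℕ) : hh (sh f y) n = hh f (y + n) := by
  unfold hh
  simp only [lam_sh]

theorem law_badS {g : ℕ} (f : Fin g → ℤ[X]) (k B : ℕ) (hk1 : 1 ≤ k) (hd : ∀ i, 0 < (f i).natDegree)
    (hl : ∀ i, 0 < (f i).leadingCoeff) (hk : ∑ i, (f i).natDegree ≤ k) (U E : ℕ) (hE : 2 * U + 6 ≤ E)
    {σ : ℝ} (hσ : σ = 1 ∨ σ = -1) {x : ℕ} (hx2 : 2 ≤ x) (hxE : Real.log x ^ E ≤ (x : ℝ))
    (hL : 4 * k + 2 * g + ∑ i, ((f i).leadingCoeff.natAbs : ℝ) + B + 2 ≤ Real.log x) :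
    law {a | x / Real.log x ^ U ≤ σ * (NN f k x ((PX (TT k x)).restrict a) -
      WW f k E x (σ * (1 / Real.log x ^ (U + 2))) ((PX (TT k x)).restrict a))} ≤
        ENNReal.ofReal (1 / (x : ℝ) ^ B) := by
  classical
  have hk0 : (1 : ℝ) ≤ k := by exact_mod_cast hk1
  have hB0 : (0 : ℝ) ≤ B := Nat.cast_nonneg _
  set L : ℝ := Real.log x with hLdef
  have hx0 : (0 : ℝ) < x := by exact_mod_cast (by omega : 0 < x)
  have hS0 : 0 ≤ ∑ i, ((f i).leadingCoeff.natAbs : ℝ) := sum_nonneg fun _ _ => Nat.cast_nonneg _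
  have hg0 : (0 : ℝ) ≤ g := Nat.cast_nonneg _
  have hL1 : 1 ≤ L := by linarith
  have hL0 : 0 < L := by linarith
  have hLE : L ≤ L ^ E := le_self_pow₀ hL1 (by omega)
  set v : ℝ := L ^ E / (2 * k * x * L ^ (U + 2)) with hv
  set d : ℝ := 2 * k * x / L ^ E with hdd
  have hv0 : 0 ≤ v := by positivity
  have hd0 : 0 ≤ d := by positivity
  have hvd : v * d = 1 / L ^ (U + 2) := by
    rw [hv, hdd]; field_simp
  have hvd1 : v * d ≤ 1 := by
    rw [hvd, div_le_one (by positivity)]
    exact one_le_pow₀ hL1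
  have hvy : B * L ≤ v * (x / L ^ U) := by
    have e1 : v * (x / L ^ U) = L ^ E / (2 * k * L ^ (2 * U + 2)) := by
      rw [hv]; field_simp; ring
    rw [e1, le_div_iff₀ (by positivity)]
    have e2 : L ^ (2 * U + 6) ≤ L ^ E := pow_le_pow_right₀ hL1 hE
    refine le_trans ?_ e2
    have e3 : L ^ (2 * U + 6) = L ^ (2 * U + 2) * (L * (L * (L * L))) := by ring
    rw [e3]
    have h4 : 4 * k ≤ L := by linarith
    have h4' : (B : ℝ) ≤ L := by linarith
    have h5 : 0 < L ^ (2 * U + 2) := by positivity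
    have h6 : B * L * (2 * k) ≤ L * (L * (L * L)) := by
      have h7 : (B : ℝ) * L ≤ L * L := mul_le_mul_of_nonneg_right h4' hL0.le
      have h8 : 2 * (k : ℝ) ≤ L * L := by nlinarith
      calc B * L * (2 * k) ≤ (L * L) * (L * L) := mul_le_mul h7 h8 (by linarith) (by positivity)
        _ = L * (L * (L * L)) := by ring
    calc B * L * (2 * k * L ^ (2 * U + 2)) = L ^ (2 * U + 2) * (B * L * (2 * k)) := by ring
      _ ≤ _ := mul_le_mul_of_nonneg_left h6 h5.le
  have hKbig : ∀ p ∈ KK k E x, L ^ E < (((p : Nat.Primes) : ℕ) : ℝ) := by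
    intro p hp
    have h1 : zz E x < ((p : Nat.Primes) : ℕ) := (Finset.mem_filter.mp hp).2
    unfold zz at h1
    exact (Nat.floor_lt (by positivity)).mp h1
  have h := tailW (Ioc (mz x) x) (fun (p : {p // p ∈ PX (TT k x)}) n => Ph f (p : Nat.Primes) n) (K0 k E x)
    (KK k E x) (disjoint_filter_filter_not _ _ _) hσ hv0 hd0 hvd1 (fun p hp r => by
      have hpE := hKbig p hp
      have hlc : ∀ i, ¬ (((p : Nat.Primes) : ℕ) : ℤ) ∣ (f i).leadingCoeff := by
        intro i hdvd
        have h1 : ((p : Nat.Primes) : ℕ) ≤ (f i).leadingCoeff.natAbs := by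
          refine Nat.le_of_dvd (Int.natAbs_pos.mpr (hl i).ne') ?_
          exact Int.natCast_dvd.mp hdvd
        have h2 : ((f i).leadingCoeff.natAbs : ℝ) ≤ ∑ i, ((f i).leadingCoeff.natAbs : ℝ) :=
          single_le_sum (f := fun i => ((f i).leadingCoeff.natAbs : ℝ)) (fun _ _ => Nat.cast_nonneg _) (Finset.mem_univ i)
        have h3 : (((p : Nat.Primes) : ℕ) : ℝ) ≤ ((f i).leadingCoeff.natAbs : ℝ) := by exact_mod_cast h1
        linarith
      have h1 := fiber_Ph f k hd hk (p : Nat.Primes) hlc x r (Ioc (mz x) x) (by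
        intro n hn
        rw [mem_Ioc] at hn
        rw [mem_Icc]
        omega)
      have h2 : (((Ioc (mz x) x).filter (fun n => r ∈ Ph f (p : Nat.Primes) n)).card : ℝ) ≤
          ((x / ((p : Nat.Primes) : ℕ) + 1) * k : ℕ) := by exact_mod_cast h1
      refine h2.trans ?_
      push_cast
      have h3 : ((x / ((p : Nat.Primes) : ℕ) : ℕ) : ℝ) ≤ x / (((p : Nat.Primes) : ℕ) : ℝ) := Nat.cast_div_le
      have h4 : x / (((p : Nat.Primes) : ℕ) : ℝ) ≤ x / L ^ E :=
        div_le_div_of_nonneg_left hx0.le (by positivity) hpE.le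
      have h5 : 1 ≤ x / L ^ E := by
        rw [le_div_iff₀ (by positivity), one_mul]
        exact hxE
      calc (((x / ((p : Nat.Primes) : ℕ) : ℕ) : ℝ) + 1) * k ≤ (2 * (x / L ^ E)) * k := by
            apply mul_le_mul_of_nonneg_right _ (by linarith)
            linarith
        _ = d := by rw [hdd]; ring)
    (fun p hp n => by
      rw [ZMod.card]
      have hpE := hKbig p hp
      have h1 : ((Ph f (p : Nat.Primes) n).card : ℝ) ≤ g := by
        exact_mod_cast (Ph_card_le f (p : Nat.Primes) n).trans (rel_card_le f _ n)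
      linarith)
    (fun a => x / L ^ U ≤ σ * (NN f k x a - WW f k E x (σ * (1 / L ^ (U + 2))) a))
    (fun a ha => by
      refine ha.trans (le_of_eq ?_)
      unfold NN WW
      have hun : KK k E x ∪ K0 k E x = univ := filter_union_filter_not_eq _ _
      rw [hun, hvd]
      simp only [ZMod.card])
    (y := x / L ^ U)
  have h2 : {a | x / L ^ U ≤ σ * (NN f k x ((PX (TT k x)).restrict a) -
      WW f k E x (σ * (1 / L ^ (U + 2))) ((PX (TT k x)).restrict a))} =
      {a : (p : Nat.Primes) → ZMod (p : ℕ) | (fun a => x / L ^ U ≤ σ * (NN f k x a -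
        WW f k E x (σ * (1 / L ^ (U + 2))) a)) ((PX (TT k x)).restrict a)} := rfl
  have h2' := law_cyl (PX (TT k x)) (fun a => x / L ^ U ≤ σ * (NN f k x a -
        WW f k E x (σ * (1 / L ^ (U + 2))) a)) (inst := Classical.decPred _)
  rw [h2, h2']
  apply ENNReal.ofReal_le_ofReal
  have h3 : Real.exp (-(v * (x / L ^ U))) ≤ 1 / (x : ℝ) ^ B := by
    have h4 : Real.exp (-(v * (x / L ^ U))) ≤ Real.exp (-(B * L)) := by
      apply Real.exp_le_exp.mpr; linarith
    refine h4.trans (le_of_eq ?_)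
    rw [Real.exp_neg, one_div]
    congr 1
    rw [Real.exp_nat_mul, hLdef, Real.exp_log hx0]
  refine le_trans (le_of_eq ?_) (h.trans h3)
  congr 1

/-- concentration, for all starting points `y ≤ x ^ K` -/
theorem ae_concS {g : ℕ} (f : Fin g → ℤ[X]) (k K : ℕ) (hk1 : 1 ≤ k) (hd : ∀ i, 0 < (f i).natDegree)
    (hl : ∀ i, 0 < (f i).leadingCoeff) (hk : ∑ i, (f i).natDegree ≤ k) (U E : ℕ) (hE : 2 * U + 6 ≤ E) :
    ∀ᵐ a ∂law, ∀ᶠ x : ℕ in atTop, ∀ y : ℕ, y ≤ x ^ K →
      NN (sh f y) k x ((PX (TT k x)).restrict a) ≤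
        WW (sh f y) k E x (1 / Real.log x ^ (U + 2)) ((PX (TT k x)).restrict a) + x / Real.log x ^ U ∧
      WW (sh f y) k E x (-(1 / Real.log x ^ (U + 2))) ((PX (TT k x)).restrict a) - x / Real.log x ^ U ≤
        NN (sh f y) k x ((PX (TT k x)).restrict a) := by
  have hb : ∀ σ : ℝ, (σ = 1 ∨ σ = -1) → ∀ᶠ x : ℕ in atTop,
      law (⋃ y ∈ range (x ^ K + 1), {a | x / Real.log x ^ U ≤ σ * (NN (sh f y) k x ((PX (TT k x)).restrict a) -
      WW (sh f y) k E x (σ * (1 / Real.log x ^ (U + 2))) ((PX (TT k x)).restrict a))}) ≤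
        ENNReal.ofReal (2 * (1 / (x : ℝ) ^ 2)) := by
    intro σ hσ
    filter_upwards [ev_log (4 * k + 2 * g + ∑ i, ((f i).leadingCoeff.natAbs : ℝ) + ((K + 2 : ℕ) : ℝ) + 2), ev_pow E,
      eventually_ge_atTop 2] with x hL hxE hx2
    have hx0 : (0 : ℝ) < x := by exact_mod_cast (by omega : 0 < x)
    calc law (⋃ y ∈ range (x ^ K + 1), {a | x / Real.log x ^ U ≤ σ * (NN (sh f y) k x ((PX (TT k x)).restrict a) -
            WW (sh f y) k E x (σ * (1 / Real.log x ^ (U + 2))) ((PX (TT k x)).restrict a))})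
        ≤ ∑ y ∈ range (x ^ K + 1), law {a | x / Real.log x ^ U ≤ σ * (NN (sh f y) k x ((PX (TT k x)).restrict a) -
            WW (sh f y) k E x (σ * (1 / Real.log x ^ (U + 2))) ((PX (TT k x)).restrict a))} :=
          measure_biUnion_finset_le _ _
      _ ≤ ∑ y ∈ range (x ^ K + 1), ENNReal.ofReal (1 / (x : ℝ) ^ (K + 2)) := by
          refine Finset.sum_le_sum fun y _ => ?_
          refine law_badS (sh f y) k (K + 2) hk1 (fun i => by rw [sh_deg]; exact hd i)
            (fun i => by rw [sh_lead]; exact hl i) (by simp only [sh_deg]; exact hk) U E hE hσ hx2 hxE ?_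
          simp only [sh_lead]
          exact hL
      _ = ENNReal.ofReal ((x ^ K + 1 : ℕ) * (1 / (x : ℝ) ^ (K + 2))) := by
          rw [sum_const, nsmul_eq_mul, card_range, ENNReal.ofReal_mul (by positivity), ENNReal.ofReal_natCast]
      _ ≤ _ := by
          apply ENNReal.ofReal_le_ofReal
          have h1 : (1 : ℝ) ≤ (x : ℝ) ^ K := one_le_pow₀ (by exact_mod_cast (by omega : 1 ≤ x))
          push_cast
          rw [mul_one_div, mul_one_div, div_le_div_iff₀ (by positivity) (by positivity), pow_add]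
          have h2 : 0 < (x : ℝ) ^ 2 := by positivity
          nlinarith
  have h1 := bc _ 2 (by norm_num) (hb 1 (Or.inl rfl))
  have h2 := bc _ 2 (by norm_num) (hb (-1) (Or.inr rfl))
  filter_upwards [h1, h2] with a h3 h4
  filter_upwards [h3, h4] with x h5 h6 y hy
  simp only [Set.mem_iUnion, Set.mem_ofPred_eq, exists_prop, not_exists, not_and, not_le, Finset.mem_range, one_mul,
    neg_mul] at h5 h6
  have h7 := h5 y (by omega)
  have h8 := h6 y (by omega)
  constructor <;> linarith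

end Pool.Agent.W2helper14.SH
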