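import Pool.Agent.W2helper14.SH.A

set_option autoImplicit false
set_option linter.unusedSectionVars false

/-!
Systems of polynomials in short intervals: the deterministic part (after `BH.Det`, `BH.Det2`, `BH.Final` of
helper64).
-/

namespace Pool.Agent.W2helper14.SH

open Finset Filter Topology Polynomial MeasureTheory Pool.Agent.W2helper64.RS Pool.Agent.W2helper64.RK
open Pool.Agent.W2helper64.BH Pool.Agent.W2helper64.GB
open Pool.Agent.H373R2.T7 (pz nuB PerB sys_count nuB_le mem_pz)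

/-- the count of the first phase -/
theorem count_phaseP (K : ℕ) (hK : 1 ≤ K) (E U : ℕ) : ∀ᶠ x : ℕ in atTop,
    ∀ (g : ℕ) (f : Fin g → ℤ[X]) (a : (p : Nat.Primes) → ZMod (p : ℕ)), PerB (Hit f a) K → ∀ y, mz x ≤ y → y ≤ x →
      |(((@Finset.filter ℕ (fun n => ∀ p ∈ pz (zz E x), ¬ Hit f a p n) (Classical.decPred _) (Ioc (mz x) y)).card : ℕ) : ℝ) -
        ((y : ℝ) - mz x) * PP f a (zz E x)| ≤ 2 ^ (U + 1) * (x / Real.log x ^ U) := by
  classical
  obtain ⟨N0, hN0⟩ := sys_count K (E + 1) U hK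
  filter_upwards [ev_log (2 * N0 + 2 * 2 ^ E + 4), eventually_ge_atTop 4] with x hL hx4 g f a hper y hy1 hy2
  obtain ⟨hm1, hm2, hm3⟩ := mz_facts hx4
  set L : ℝ := Real.log x with hLdef
  have hN0' : (0 : ℝ) ≤ N0 := Nat.cast_nonneg _
  have h2E : (0 : ℝ) < 2 ^ E := by positivity
  have hL0 : 0 < L := by linarith
  have hL1 : 1 ≤ L := by linarith
  have hz1 : 1 ≤ zz E x := by
    unfold zz
    apply Nat.le_floor
    push_cast
    exact one_le_pow₀ hL1
  have hmain : ∀ N : ℕ, mz x ≤ N → N ≤ x →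
      |(((@Finset.filter ℕ (fun n => ∀ p ∈ pz (zz E x), ¬ Hit f a p n) (Classical.decPred _) (Icc 1 N)).card : ℕ) : ℝ) -
        N * PP f a (zz E x)| ≤ 2 ^ U * (x / L ^ U) := by
    intro N h1 h2
    have hlN := hm3 N h1
    have hNpos : (0 : ℝ) < N := by
      have : 0 < N := by unfold mz at h1; omega
      exact_mod_cast this
    have hlN' : Real.log N ≤ N := (Real.log_le_sub_one_of_pos hNpos).trans (by linarith)
    have hN : N0 ≤ N := by
      have : (N0 : ℝ) ≤ N := by linarith
      exact_mod_cast this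
    have hlN0 : 0 < Real.log N := by linarith
    have h3 := hN0 N hN (zz E x) hz1 (by
      have e1 : (zz E x : ℝ) ≤ L ^ E := Nat.floor_le (by positivity)
      refine e1.trans ?_
      calc L ^ E ≤ (2 * Real.log N) ^ E := pow_le_pow_left₀ hL0.le (by linarith) E
        _ = 2 ^ E * Real.log N ^ E := by rw [mul_pow]
        _ ≤ Real.log N * Real.log N ^ E := by
            apply mul_le_mul_of_nonneg_right _ (by positivity)
            linarith
        _ = Real.log N ^ (E + 1) := by ring) (Hit f a) hper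
    have h4 : (N : ℝ) / Real.log N ^ U ≤ 2 ^ U * (x / L ^ U) := by
      have e2 : (L / 2) ^ U ≤ Real.log N ^ U := pow_le_pow_left₀ (by positivity) hlN U
      calc (N : ℝ) / Real.log N ^ U ≤ x / (L / 2) ^ U := by
            apply div_le_div₀ (Nat.cast_nonneg _) (by exact_mod_cast h2) (by positivity) e2
        _ = 2 ^ U * (x / L ^ U) := by rw [div_pow]; field_simp
    unfold PP
    have h5 := h3.trans h4
    obtain ⟨M, hM1, hM2⟩ : ∃ M : ℕ, M = (@Finset.filter ℕ (fun n => ∀ p ∈ pz (zz E x), ¬ Hit f a p n)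
        (Classical.decPred _) (Icc 1 N)).card ∧
        |(M : ℝ) - N * ∏ p ∈ pz (zz E x), (1 - (nuB (Hit f a) p : ℝ) / p)| ≤ 2 ^ U * (x / L ^ U) := by
      refine ⟨_, ?_, h5⟩
      congr
    rw [← hM1]
    exact hM2
  have h5 := hmain (mz x) le_rfl hm1
  have h6 := hmain y hy1 hy2
  have hsplit : (((@Finset.filter ℕ (fun n => ∀ p ∈ pz (zz E x), ¬ Hit f a p n) (Classical.decPred _) (Icc 1 y)).card : ℕ) : ℝ) =
      (((@Finset.filter ℕ (fun n => ∀ p ∈ pz (zz E x), ¬ Hit f a p n) (Classical.decPred _) (Icc 1 (mz x))).card : ℕ) : ℝ) +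
      (((@Finset.filter ℕ (fun n => ∀ p ∈ pz (zz E x), ¬ Hit f a p n) (Classical.decPred _) (Ioc (mz x) y)).card : ℕ) : ℝ) := by
    rw [← Nat.cast_add, ← card_union_of_disjoint]
    · congr 2
      ext n
      simp only [Finset.mem_union, mf', mem_Icc, mem_Ioc]
      constructor
      · rintro ⟨h7, h8⟩
        rcases le_or_gt n (mz x) with h9 | h9
        · exact Or.inl ⟨⟨h7.1, h9⟩, h8⟩
        · exact Or.inr ⟨⟨h9, h7.2⟩, h8⟩
      · rintro (⟨h7, h8⟩ | ⟨h7, h8⟩)
        · exact ⟨⟨h7.1, by omega⟩, h8⟩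
        · exact ⟨⟨by omega, h7.2⟩, h8⟩
    · rw [Finset.disjoint_left]
      intro n h7 h8
      rw [mf', mem_Icc] at h7
      rw [mf', mem_Ioc] at h8
      omega
  have h7 : (2 : ℝ) ^ (U + 1) * (x / L ^ U) = 2 ^ U * (x / L ^ U) + 2 ^ U * (x / L ^ U) := by ring
  rw [h7]
  rw [abs_le] at h5 h6 ⊢
  constructor <;> nlinarith


/-- the number of classes in a shifted complete system of residues -/
theorem card_shift (P : ℕ → Prop) (p y : ℕ) (hper : ∀ n, P n ↔ P (n % p)) :
    (@Finset.filter ℕ (fun m => P (y + m)) (Classical.decPred _) (range p)).card =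
      (@Finset.filter ℕ P (Classical.decPred _) (range p)).card := by
  classical
  have hpp : Function.Periodic P p := by
    intro n
    apply propext
    rw [hper (n + p), hper n, Nat.add_mod_right]
  have h1 := Nat.filter_Ico_card_eq_of_periodic y p P hpp
  have h2 : ((Ico y (y + p)).filter P).card = ((range p).filter (fun m => P (y + m))).card := by
    have e0 : ((range p).filter (fun m => P (y + m))).card =
        (((range p).filter (fun m => P (y + m))).map (addLeftEmbedding y)).card := (Finset.card_map _).symm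
    rw [e0]
    congr 1
    ext n
    simp only [Finset.mem_filter, mem_Ico, Finset.mem_map, mem_range, addLeftEmbedding_apply]
    constructor
    · rintro ⟨⟨h3, h4⟩, h5⟩
      refine ⟨n - y, ⟨by omega, ?_⟩, by omega⟩
      rwa [Nat.add_sub_cancel' h3]
    · rintro ⟨m, ⟨h3, h4⟩, rfl⟩
      exact ⟨⟨by omega, by omega⟩, h4⟩
  have h3 : Nat.count P p = ((range p).filter P).card := Nat.count_eq_card_filter_range P p
  have e1 : (@Finset.filter ℕ (fun m => P (y + m)) (Classical.decPred _) (range p)).card =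
      ((range p).filter (fun m => P (y + m))).card := by congr
  have e2 : (@Finset.filter ℕ P (Classical.decPred _) (range p)).card = ((range p).filter P).card := by congr
  rw [e1, e2, ← h2, h1, h3]

theorem hit_sh {g : ℕ} (f : Fin g → ℤ[X]) (a : (p : Nat.Primes) → ZMod (p : ℕ)) (y p n : ℕ) :
    Hit (sh f y) a p n ↔ Hit f a p (y + n) := by
  unfold Hit
  simp only [sh_eval_nat]

theorem nuB_sh {g : ℕ} (f : Fin g → ℤ[X]) (a : (p : Nat.Primes) → ZMod (p : ℕ)) (y p : ℕ) :
    nuB (Hit (sh f y) a) p = nuB (Hit f a) p := by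
  unfold nuB
  have h := card_shift (Hit f a p) p y (fun n => hit_per f a p n)
  refine Eq.trans ?_ (h.trans ?_)
  · congr 1
    ext m
    rw [mf', mf', hit_sh]
  · congr

theorem PP_sh {g : ℕ} (f : Fin g → ℤ[X]) (a : (p : Nat.Primes) → ZMod (p : ℕ)) (y z : ℕ) :
    PP (sh f y) a z = PP f a z := by
  unfold PP
  simp only [nuB_sh]

theorem perB_sh {g : ℕ} (f : Fin g → ℤ[X]) (k : ℕ) (hd : ∀ i, 0 < (f i).natDegree)
    (hl : ∀ i, 0 < (f i).leadingCoeff)
    (hk : ∑ i, (f i).natDegree ≤ k) (a : (p : Nat.Primes) → ZMod (p : ℕ)) (y : ℕ) :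
    PerB (Hit (sh f y) a) (k + lcs f + 1) := by
  refine ⟨hit_per _ a, fun p hp => ?_⟩
  rw [nuB_sh]
  exact (perB f k hd hl hk a).few p hp

/-- the conditions of the engine for all starting points -/
theorem ev_goodS {g : ℕ} (f : Fin g → ℤ[X]) (k K : ℕ) (hd : ∀ i, 0 < (f i).natDegree)
    (hl : ∀ i, 0 < (f i).leadingCoeff) (hk : ∑ i, (f i).natDegree ≤ k) (hinj : Function.Injective f)
    (E : ℕ) (hE : 1 ≤ E) : ∀ᶠ x : ℕ in atTop, ∀ y : ℕ, y ≤ x ^ K → GoodG (sh f y) ((k + 1) * (K + 2)) E x := by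
  have hki : ∀ i, (f i).natDegree ≤ k := fun i =>
    (single_le_sum (f := fun i => (f i).natDegree) (fun _ _ => Nat.zero_le _) (Finset.mem_univ i)).trans hk
  obtain ⟨n0, hn0⟩ := ev_sys f k hd hl hki hinj
  filter_upwards [ev_log (16 + 2 * g + 2 * n0), eventually_ge_atTop 4, ev_invV E g, ev_invV E 2] with x hL hx4 hV1 hV2 y hy
  obtain ⟨hm1, hm2, hm3⟩ := mz_facts hx4
  have hn00 : (0 : ℝ) ≤ n0 := Nat.cast_nonneg _
  have hg0 : (0 : ℝ) ≤ g := Nat.cast_nonneg _
  have hk0 : (0 : ℝ) ≤ k := Nat.cast_nonneg _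
  have hK0 : (0 : ℝ) ≤ K := Nat.cast_nonneg _
  have hx0 : (0 : ℝ) < x := by exact_mod_cast (by omega : 0 < x)
  set L : ℝ := Real.log x with hLd
  have hL1 : 1 ≤ L := by linarith
  have hL0 : 0 < L := by linarith
  have hLE : L ≤ L ^ E := le_self_pow₀ hL1 (by omega)
  have hT : TT ((k + 1) * (K + 2)) x = ((k + 1) * (K + 2) + 1) * L := by
    unfold TT
    push_cast
    rfl
  have hVz := V_pos (zz E x)
  -- the inverse of V
  have hinv : 1 / V (zz E x) ≤ L / 4 := by
    have h1 : (1 / V (zz E x)) ^ 2 ≤ (L / 4) ^ 2 := by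
      refine hV2.trans ?_
      have : 16 * L ≤ L * L := mul_le_mul_of_nonneg_right (by linarith) hL0.le
      nlinarith
    exact le_of_sq_le_sq h1 (by positivity)
  have hnm : ∀ n : ℕ, mz x ≤ n → n0 ≤ n := by
    intro n hn
    have h1 := hm3 n hn
    have hnpos : (0 : ℝ) < n := by
      have : 0 < n := by unfold mz at hn; omega
      exact_mod_cast this
    have h2 := Real.log_le_sub_one_of_pos hnpos
    have : (n0 : ℝ) ≤ n := by linarith
    exact_mod_cast this
  refine ⟨by linarith, ?_, ?_, ?_, hV1, ?_, hm1, fun n h1 h2 => ?_, fun n h1 h2 => ?_⟩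
  · unfold zz
    apply Nat.le_floor
    push_cast
    linarith
  · unfold zz
    apply Nat.le_floor
    push_cast
    linarith
  · have h1 : L ^ E < (⌊L ^ E⌋₊ : ℝ) + 1 := Nat.lt_floor_add_one _
    have h2 : (zz E x : ℝ) = (⌊L ^ E⌋₊ : ℝ) := rfl
    rw [h2]
    linarith
  · rw [hT]
    have : 0 ≤ ((k : ℝ) + 1) * (K + 2) := by positivity
    nlinarith
  · have hyn : n0 ≤ y + n := (hnm n h1).trans (Nat.le_add_left _ _)
    obtain ⟨h3, h4, h5, h6⟩ := hn0 (y + n) hyn
    have hln := hm3 n h1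
    have hnpos : (0 : ℝ) < n := by
      have : 0 < n := by unfold mz at h1; omega
      exact_mod_cast this
    have hyr : (0 : ℝ) ≤ y := Nat.cast_nonneg _
    have hln1 : Real.log n ≤ Real.log ((y + n : ℕ) : ℝ) := by
      apply Real.log_le_log hnpos
      push_cast
      linarith
    have hln2 : Real.log ((y + n : ℕ) : ℝ) ≤ (K + 2) * L := by
      have h7 : ((y + n : ℕ) : ℝ) ≤ (x : ℝ) ^ (K + 2) := by
        have h8 : y + n ≤ x ^ (K + 2) := by
          have e1 : x ^ K ≤ x ^ (K + 1) := Nat.pow_le_pow_right (by omega) (by omega)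
          have e2 : x ≤ x ^ (K + 1) := Nat.le_self_pow (by omega) x
          have e3 : x ^ (K + 2) = x ^ (K + 1) * x := pow_succ _ _
          have e4 : x ^ (K + 1) * 2 ≤ x ^ (K + 1) * x := Nat.mul_le_mul_left _ (by omega)
          omega
        exact_mod_cast h8
      refine (Real.log_le_log ?_ h7).trans (le_of_eq ?_)
      · push_cast
        linarith
      · rw [Real.log_pow]
        push_cast
        rfl
    have hle : (k + 1) * Real.log ((y + n : ℕ) : ℝ) ≤ TT ((k + 1) * (K + 2)) x := by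
      rw [hT]
      calc ((k : ℝ) + 1) * Real.log ((y + n : ℕ) : ℝ) ≤ (k + 1) * ((K + 2) * L) :=
            mul_le_mul_of_nonneg_left hln2 (by linarith)
        _ ≤ _ := by
            have : ((k : ℝ) + 1) * ((K + 2) * L) = ((k + 1) * (K + 2)) * L := by ring
            rw [this]
            apply mul_le_mul_of_nonneg_right _ hL0.le
            linarith
    refine ⟨fun i => ?_, fun i => ⟨?_, ?_, ?_⟩, fun i j hij => ?_, fun i j hij => ?_⟩
    · rw [sh_eval_nat]
      exact (h3 i).1
    · rw [lam_sh]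
      exact (h4 i).1
    · rw [lam_sh]
      exact (h4 i).2.2.1.trans hle
    · rw [lam_sh]
      have h7 : L / 4 ≤ lam f i (y + n) := by linarith [(h4 i).2.1]
      have h8 : 1 / V (zz E x) ≤ lam f i (y + n) := hinv.trans h7
      rw [div_le_iff₀ hVz] at h8
      linarith
    · rw [sh_eval_nat, sh_eval_nat]
      exact h5 i j hij
    · rw [sh_eval_nat, sh_eval_nat]
      exact (h6 i j hij).trans hle
  · have hyn : n0 ≤ y + n := (hnm n h1).trans (Nat.le_add_left _ _)
    obtain ⟨-, h4, -, -⟩ := hn0 (y + n) hyn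
    rw [hh_sh, hh_sh]
    unfold hh
    refine prod_le_prod (fun i _ => ?_) fun i _ => ?_
    · have h5 := h4 i
      have : 0 ≤ lam f i (y + (n + 1)) := by
        have e : y + (n + 1) = y + n + 1 := by omega
        rw [e]
        linarith
      positivity
    · have h5 := h4 i
      have e : y + (n + 1) = y + n + 1 := by omega
      rw [e]
      exact one_div_le_one_div_of_le (by linarith) h5.2.2.2

end Pool.Agent.W2helper14.SH
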