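import Pool.Agent.W2helper14.SH.B

set_option autoImplicit false
set_option linter.unusedSectionVars false

/-!
Systems of polynomials in short intervals: the asymptotic formula (after `BH.Final` of helper64).
-/

namespace Pool.Agent.W2helper14.SH

open Finset Filter Topology Polynomial MeasureTheory Pool.Agent.W2helper64.RS Pool.Agent.W2helper64.RK
open Pool.Agent.W2helper64.BH Pool.Agent.W2helper64.GB
open Pool.Agent.H373R2.T7 (pz nuB PerB sys_count nuB_le mem_pz)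

theorem hhG_facts' {g : ℕ} {f : Fin g → ℤ[X]} {k E x : ℕ} (G : GoodG f k E x) (n : ℕ) (hn : mz x ≤ n) (hx : n ≤ x) :
    0 ≤ hh f n ∧ hh f n ≤ 1 := by
  have h := hhG_facts G n hn
  rw [if_pos hx] at h
  exact ⟨h.1, h.2.1⟩

theorem mzsq' {x : ℕ} (hx : 1 ≤ x) : (mz x : ℝ) ≤ 2 * √(x : ℝ) := by
  unfold mz
  push_cast
  have h1 : ((Nat.sqrt x : ℕ) : ℝ) ≤ √(x : ℝ) := by
    apply Real.le_sqrt_of_sq_le
    exact_mod_cast Nat.sqrt_le' x
  have h2 : 1 ≤ √(x : ℝ) := by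
    rw [Real.one_le_sqrt]
    exact_mod_cast hx
  linarith

theorem cnt_closeG {g : ℕ} {f : Fin g → ℤ[X]} {k E x : ℕ} (G : GoodG f k E x)
    (a : (p : Nat.Primes) → ZMod (p : ℕ)) :
    |(Pool.Agent.W2helper64.BH.cnt f a x : ℝ) - NN f k x ((PX (TT k x)).restrict a)| ≤ mz x := by
  classical
  unfold Pool.Agent.W2helper64.BH.cnt
  rw [card_split _ (mz x) x G.mzx]
  have h1 : ((@Finset.filter ℕ (AllR f a) (Classical.decPred _) (Ioc (mz x) x)).card : ℝ) =
      NN f k x ((PX (TT k x)).restrict a) := by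
    unfold NN
    congr 2
    ext n
    unfold survW
    rw [mf', Finset.mem_filter]
    refine and_congr_right fun hn => ?_
    rw [mem_Ioc] at hn
    rw [R_iffG G a hn.1 hn.2]
    simp
  rw [h1, add_sub_cancel_right, abs_of_nonneg (Nat.cast_nonneg _)]
  have h2 : (@Finset.filter ℕ (AllR f a) (Classical.decPred _) (Icc 1 (mz x))).card ≤ (Icc 1 (mz x)).card :=
    card_le_card fun n hn => (mf'.mp hn).1
  rw [Nat.card_Icc, Nat.add_sub_cancel] at h2
  exact_mod_cast h2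

theorem HH_closeG {g : ℕ} {f : Fin g → ℤ[X]} {k E x : ℕ} (G : GoodG f k E x) :
    |HH f x - ∑ n ∈ Ioc (mz x) x, hh f n| ≤ mz x := by
  classical
  have hsplit : @Finset.filter ℕ (fun n => ∀ i, 8 ≤ (f i).eval (n : ℤ)) (Classical.decPred _) (Icc 1 x) =
      @Finset.filter ℕ (fun n => ∀ i, 8 ≤ (f i).eval (n : ℤ)) (Classical.decPred _) (Icc 1 (mz x)) ∪
        Ioc (mz x) x := by
    ext n
    simp only [Finset.mem_union, mf', mem_Icc, mem_Ioc]
    have hm := G.mzx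
    constructor
    · rintro ⟨h7, h8⟩
      rcases le_or_gt n (mz x) with h9 | h9
      · exact Or.inl ⟨⟨h7.1, h9⟩, h8⟩
      · exact Or.inr ⟨h9, h7.2⟩
    · rintro (⟨h7, h8⟩ | h7)
      · exact ⟨⟨h7.1, by omega⟩, h8⟩
      · exact ⟨⟨by omega, h7.2⟩, (G.sys n h7.1.le h7.2).1⟩
  unfold HH
  rw [hsplit, sum_union]
  · have h1 : ∑ n ∈ Ioc (mz x) x, ∏ i, (1 / Real.log (((f i).eval (n : ℤ) : ℤ) : ℝ)) =
        ∑ n ∈ Ioc (mz x) x, hh f n := rfl
    rw [h1, add_sub_cancel_right]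
    have h2 : ∀ n ∈ @Finset.filter ℕ (fun n => ∀ i, 8 ≤ (f i).eval (n : ℤ)) (Classical.decPred _) (Icc 1 (mz x)),
        0 ≤ ∏ i, (1 / Real.log (((f i).eval (n : ℤ) : ℤ) : ℝ)) ∧
        ∏ i, (1 / Real.log (((f i).eval (n : ℤ) : ℤ) : ℝ)) ≤ 1 := by
      intro n hn
      have h3 := (mf'.mp hn).2
      have h4 : ∀ i, 2 ≤ Real.log (((f i).eval (n : ℤ) : ℤ) : ℝ) := by
        intro i
        refine log8.trans (Real.log_le_log (by norm_num) ?_)
        exact_mod_cast h3 i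
      refine ⟨prod_nonneg fun i _ => ?_, prod_le_one (fun i _ => ?_) fun i _ => ?_⟩
      · have := h4 i; positivity
      · have := h4 i; positivity
      · have := h4 i
        rw [div_le_one (by linarith)]; linarith
    rw [abs_of_nonneg (sum_nonneg fun n hn => (h2 n hn).1)]
    refine (sum_le_sum fun n hn => (h2 n hn).2).trans ?_
    rw [sum_const, nsmul_eq_mul, mul_one]
    have h5 : (@Finset.filter ℕ (fun n => ∀ i, 8 ≤ (f i).eval (n : ℤ)) (Classical.decPred _) (Icc 1 (mz x))).card ≤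
        (Icc 1 (mz x)).card := card_le_card fun n hn => (mf'.mp hn).1
    rw [Nat.card_Icc, Nat.add_sub_cancel] at h5
    exact_mod_cast h5
  · rw [Finset.disjoint_left]
    intro n h7 h8
    rw [mf', mem_Icc] at h7
    rw [mem_Ioc] at h8
    omega

theorem ae_short {g : ℕ} (f : Fin g → ℤ[X]) (hd : ∀ i, 0 < (f i).natDegree)
    (hl : ∀ i, 0 < (f i).leadingCoeff) (hinj : Function.Injective f) (K U : ℕ) :
    ∀ᵐ a ∂law, ∀ S C : ℝ, 0 ≤ C → 0 ≤ S →
      (∀ᶠ z : ℕ in atTop, |PP f a z / V z ^ g - S| ≤ C * (z : ℝ) ^ (-(1 / 4) : ℝ)) →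
      ∃ M : ℝ, ∀ᶠ x : ℕ in atTop, ∀ y : ℕ, y ≤ x ^ K →
        |(Pool.Agent.W2helper64.BH.cnt (sh f y) a x : ℝ) - S * HH (sh f y) x| ≤ M * ((x : ℝ) / Real.log x ^ U) := by
  set k0 : ℕ := ∑ i, (f i).natDegree + 1 with hk0'
  have hk0 : ∑ i, (f i).natDegree ≤ k0 := by omega
  set k : ℕ := (k0 + 1) * (K + 2) with hk
  have hk0k : k0 ≤ k := by
    rw [hk]
    nlinarith
  have hk1 : 1 ≤ k := by omega
  have hk2 : ∑ i, (f i).natDegree ≤ k := by omega
  set E : ℕ := 4 * (U + 2) with hE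
  filter_upwards [ae_concS f k K hk1 hd hl hk2 U E (by omega)] with a ha S C hC0 hS0 hrate
  obtain ⟨Z0, hZ0⟩ := eventually_atTop.mp hrate
  refine ⟨2 + C0 g k U + 2 * C + 2 * S, ?_⟩
  filter_upwards [ha, ev_goodS f k0 K hd hl hk0 hinj E (by omega), count_phaseP (k0 + lcs f + 1) (by omega) E (U + 1),
    ev_log (2 * Z0 + 2), ev_pow (2 * U), eventually_ge_atTop 1] with x h1' G' h2 h3 h4 h5 y hy
  have h1 := h1' y hy
  have G := G' y hy
  set L : ℝ := Real.log x with hLd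
  have hL1 : 1 ≤ L := by
    have := G.L1
    linarith
  have hL0 : 0 < L := by linarith
  have hx0 : (0 : ℝ) < x := by exact_mod_cast h5
  have hLU : 0 < L ^ U := by positivity
  set X : ℝ := x / L ^ U with hX
  have hX0 : 0 ≤ X := by positivity
  -- the starting segment
  have hsx : √(x : ℝ) ≤ X := by
    rw [hX, le_div_iff₀ hLU]
    have e1 : L ^ U ≤ √(x : ℝ) := by
      apply Real.le_sqrt_of_sq_le
      rw [← pow_mul, mul_comm U 2]
      exact h4
    calc √(x : ℝ) * L ^ U ≤ √(x : ℝ) * √(x : ℝ) := mul_le_mul_of_nonneg_left e1 (Real.sqrt_nonneg _)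
      _ = x := Real.mul_self_sqrt hx0.le
  have hmX : (mz x : ℝ) ≤ 2 * X := by
    have := mzsq' h5
    linarith
  have c1 := cnt_closeG G a
  have c2 := NN_closeG G (by omega : U + 1 ≤ E) a h1.1 h1.2 (h2 g (sh f y) a (perB_sh f k0 hd hl hk0 a y))
  have c3 := HH_closeG G
  set H : ℝ := ∑ n ∈ Ioc (mz x) x, hh (sh f y) n with hH
  have hHx : 0 ≤ H ∧ H ≤ x := by
    constructor
    · refine sum_nonneg fun n hn => ?_
      rw [mem_Ioc] at hn
      exact (hhG_facts' G n hn.1.le hn.2).1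
    · have e1 : H ≤ ∑ _n ∈ Ioc (mz x) x, (1 : ℝ) := sum_le_sum fun n hn => by
        rw [mem_Ioc] at hn
        exact (hhG_facts' G n hn.1.le hn.2).2
      rw [sum_const, nsmul_eq_mul, mul_one, Nat.card_Ioc] at e1
      refine e1.trans ?_
      exact_mod_cast Nat.sub_le _ _
  -- the rate
  have hzlow := G.zlow
  have hLE : L ≤ L ^ E := le_self_pow₀ hL1 (by omega)
  have hzZ : Z0 ≤ zz E x := by
    have : (Z0 : ℝ) ≤ zz E x := by linarith
    exact_mod_cast this
  have c4 := hZ0 (zz E x) hzZ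
  rw [← PP_sh f a y] at c4
  have c5 : ((zz E x : ℕ) : ℝ) ^ (-(1 / 4) : ℝ) ≤ 2 / L ^ (U + 2) := quarter_bound hL1 hzlow
  have c6 : |PP (sh f y) a (zz E x) / V (zz E x) ^ g * H - S * H| ≤ 2 * C * X := by
    rw [← sub_mul, abs_mul, abs_of_nonneg hHx.1]
    calc |PP (sh f y) a (zz E x) / V (zz E x) ^ g - S| * H ≤ (C * (2 / L ^ (U + 2))) * x :=
          mul_le_mul (c4.trans (mul_le_mul_of_nonneg_left c5 hC0)) hHx.2 hHx.1 (by positivity)
      _ = 2 * C * (x / L ^ (U + 2)) := by ring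
      _ ≤ 2 * C * X := by
          apply mul_le_mul_of_nonneg_left _ (by positivity)
          rw [hX]
          apply div_le_div_of_nonneg_left hx0.le hLU
          exact pow_le_pow_right₀ hL1 (by omega)
  have c7 : |S * H - S * HH (sh f y) x| ≤ S * (2 * X) := by
    rw [← mul_sub, abs_mul, abs_of_nonneg hS0, abs_sub_comm]
    exact mul_le_mul_of_nonneg_left (c3.trans hmX) hS0
  set N := NN (sh f y) k x ((PX (TT k x)).restrict a)
  set Q := PP (sh f y) a (zz E x) / V (zz E x) ^ g * H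
  have e : (Pool.Agent.W2helper64.BH.cnt (sh f y) a x : ℝ) - S * HH (sh f y) x = ((Pool.Agent.W2helper64.BH.cnt (sh f y) a x : ℝ) - N) + (N - Q) + (Q - S * H) + (S * H - S * HH (sh f y) x) := by
    ring
  rw [e]
  have t1 := abs_add_le (((Pool.Agent.W2helper64.BH.cnt (sh f y) a x : ℝ) - N) + (N - Q) + (Q - S * H)) (S * H - S * HH (sh f y) x)
  have t2 := abs_add_le (((Pool.Agent.W2helper64.BH.cnt (sh f y) a x : ℝ) - N) + (N - Q)) (Q - S * H)
  have t3 := abs_add_le ((Pool.Agent.W2helper64.BH.cnt (sh f y) a x : ℝ) - N) (N - Q)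
  have hfin : (2 + C0 g k U + 2 * C + 2 * S) * X = 2 * X + C0 g k U * X + 2 * C * X + S * (2 * X) := by ring
  rw [hfin]
  linarith


end Pool.Agent.W2helper14.SH
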