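import Pool.Agent.W2helper14.SH.C
import Pool.Agent.W2helper14.RB.Gen

set_option autoImplicit false

/-!
Tuples in short intervals.
-/

namespace Pool.Agent.W2helper14.SH

open Filter MeasureTheory Polynomial Topology Pool.Agent.W2helper14.RB

/-- the system `X + h i` -/
noncomputable def tup {g : ℕ} (h : Fin g → ℕ) : Fin g → ℤ[X] := fun i => X + C ((h i : ℕ) : ℤ)

theorem tup_eval {g : ℕ} (h : Fin g → ℕ) (i : Fin g) (n : ℕ) :
    (tup h i).eval (n : ℤ) = ((n + h i : ℕ) : ℤ) := by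
  simp [tup]

theorem tup_facts {g : ℕ} (h : Fin g → ℕ) (i : Fin g) : 0 < (tup h i).natDegree ∧ 0 < (tup h i).leadingCoeff := by
  unfold tup
  rw [natDegree_X_add_C, leadingCoeff_X_add_C]
  norm_num

theorem tup_inj {g : ℕ} {h : Fin g → ℕ} (hh : Function.Injective h) : Function.Injective (tup h) := by
  intro i j hij
  apply hh
  have := congrArg (fun p : ℤ[X] => p.eval ((0 : ℕ) : ℤ)) hij
  simp only [tup_eval, Nat.zero_add] at this
  exact_mod_cast this

open Classical in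
/-- the number of the residue classes modulo `p` of the `h i` -/
noncomputable def nuT {g : ℕ} (h : Fin g → ℕ) (p : Nat.Primes) : ℕ :=
  (Finset.univ.image fun i => ((h i : ℕ) : ZMod (p : ℕ))).card

/-- the partial products of the singular series of the tuple `h` -/
noncomputable def seriesT {g : ℕ} (h : Fin g → ℕ) (z : ℕ) : ℝ :=
  ∏ p ∈ primes 1 z, (1 - (nuT h p : ℝ) / (p : ℕ)) / (1 - 1 / ((p : ℕ) : ℝ)) ^ g

theorem nu_tup {g : ℕ} (h : Fin g → ℕ) (a : (p : Nat.Primes) → ZMod (p : ℕ)) (p : Nat.Primes) :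
    nu (tup h) a p = nuT h p := by
  classical
  have : NeZero (p : ℕ) := ⟨p.2.ne_zero⟩
  have hval : ∀ x : ZMod (p : ℕ), ((x.val : ℕ) : ZMod (p : ℕ)) = x := fun x => by
    rw [ZMod.natCast_val, ZMod.cast_id', id]
  have h1 : ∀ m : ℕ, (∃ i, (((tup h i).eval (m : ℤ) : ℤ) : ZMod (p : ℕ)) = a p) ↔
      ∃ i, (m : ZMod (p : ℕ)) + (h i : ZMod (p : ℕ)) = a p := by
    intro m
    refine exists_congr fun i => ?_
    rw [tup_eval]
    push_cast
    rfl
  unfold nu nuT
  refine Finset.card_bij (fun m _ => a p - (m : ZMod (p : ℕ))) ?_ ?_ ?_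
  · intro m hm
    have h2 := (Pool.Agent.W2helper64.RK.mf'.mp hm).2
    rw [h1] at h2
    obtain ⟨i, hi⟩ := h2
    have h3 : a p - (m : ZMod (p : ℕ)) = (h i : ZMod (p : ℕ)) := by rw [← hi]; ring
    rw [h3]
    exact Finset.mem_image.mpr ⟨i, Finset.mem_univ _, rfl⟩
  · intro m hm l hl hml
    have h2 := (Pool.Agent.W2helper64.RK.mf'.mp hm).1
    have h3 := (Pool.Agent.W2helper64.RK.mf'.mp hl).1
    rw [Finset.mem_range] at h2 h3
    have h4 : (m : ZMod (p : ℕ)) = l := by linear_combination -hml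
    rw [ZMod.natCast_eq_natCast_iff] at h4
    have h5 : m % (p : ℕ) = l % (p : ℕ) := h4
    rwa [Nat.mod_eq_of_lt h2, Nat.mod_eq_of_lt h3] at h5
  · intro r hr
    obtain ⟨i, -, hi⟩ := Finset.mem_image.mp hr
    refine ⟨(a p - r).val, Pool.Agent.W2helper64.RK.mf'.mpr ⟨Finset.mem_range.mpr (ZMod.val_lt _), ?_⟩, ?_⟩
    · rw [h1]
      refine ⟨i, ?_⟩
      rw [hval, hi]
      ring
    · rw [hval]
      ring

theorem series_tup {g : ℕ} (h : Fin g → ℕ) (a : (p : Nat.Primes) → ZMod (p : ℕ)) (z : ℕ) :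
    series (tup h) a z = seriesT h z := by
  unfold series seriesT
  simp only [nu_tup]

/-- the number of the `y < n ≤ y + H` with all `n + h i ∈ R` -/
noncomputable def countT {g : ℕ} (a : (p : Nat.Primes) → ZMod (p : ℕ)) (h : Fin g → ℕ) (y H : ℕ) : ℕ :=
  {n : ℕ | y < n ∧ n ≤ y + H ∧ ∀ i, n + h i ∈ R a}.ncard

/-- the sum of `∏_i 1 / log (n + h i)` over the `y < n ≤ y + H` -/
noncomputable def mainT' {g : ℕ} (h : Fin g → ℕ) (y H : ℕ) : ℝ :=
  ∑ n ∈ Finset.Ioc y (y + H), ∏ i, 1 / Real.log ((n : ℝ) + h i)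

theorem countT_eq {g : ℕ} (a : (p : Nat.Primes) → ZMod (p : ℕ)) (h : Fin g → ℕ) (y H : ℕ) :
    countT a h y H = Pool.Agent.W2helper64.BH.cnt (sh (tup h) y) a H := by
  classical
  unfold countT Pool.Agent.W2helper64.BH.cnt
  have h1 : {n : ℕ | y < n ∧ n ≤ y + H ∧ ∀ i, n + h i ∈ R a} = (fun m : ℕ => y + m) ''
      {m : ℕ | (1 ≤ m ∧ m ≤ H) ∧ ∀ i, (y + m) + h i ∈ R a} := by
    ext n
    simp only [Set.mem_image, Set.mem_ofPred_eq]
    constructor
    · rintro ⟨h1, h2, h3⟩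
      have e : y + (n - y) = n := by omega
      exact ⟨n - y, ⟨⟨by omega, by omega⟩, by rw [e]; exact h3⟩, e⟩
    · rintro ⟨m, ⟨⟨h1, h2⟩, h3⟩, rfl⟩
      exact ⟨by omega, by omega, h3⟩
  rw [h1, Set.ncard_image_of_injective _ (fun u v huv => by
    have : y + u = y + v := huv
    omega)]
  rw [← Set.ncard_coe_finset]
  congr 1
  ext m
  simp only [Set.mem_ofPred_eq, Finset.mem_coe]
  rw [Pool.Agent.W2helper64.RK.mf', Finset.mem_Icc]
  refine and_congr_right fun _ => forall_congr' fun i => ?_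
  rw [sh_eval_nat, tup_eval]
  constructor
  · intro hr
    exact ⟨_, hr, rfl⟩
  · rintro ⟨r, hr, he⟩
    have : r = y + m + h i := by exact_mod_cast he
    rw [← this]
    exact hr

theorem mainT_eq' {g : ℕ} (h : Fin g → ℕ) (y H : ℕ) (hy : 8 ≤ y) :
    mainT' h y H = Pool.Agent.W2helper64.BH.HH (sh (tup h) y) H := by
  classical
  unfold mainT' Pool.Agent.W2helper64.BH.HH
  refine Finset.sum_nbij' (fun n => n - y) (fun m => y + m) ?_ ?_ ?_ ?_ ?_
  · intro n hn
    rw [Finset.mem_Ioc] at hn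
    rw [Pool.Agent.W2helper64.RK.mf', Finset.mem_Icc]
    refine ⟨⟨by omega, by omega⟩, fun i => ?_⟩
    rw [sh_eval_nat, tup_eval]
    have : 8 ≤ y + (n - y) + h i := by omega
    exact_mod_cast this
  · intro m hm
    have h1 := (Pool.Agent.W2helper64.RK.mf'.mp hm).1
    rw [Finset.mem_Icc] at h1
    rw [Finset.mem_Ioc]
    constructor <;> omega
  · intro n hn
    rw [Finset.mem_Ioc] at hn
    omega
  · intro m hm
    omega
  · intro n hn
    rw [Finset.mem_Ioc] at hn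
    refine Finset.prod_congr rfl fun i _ => ?_
    rw [sh_eval_nat, tup_eval]
    have e : y + (n - y) = n := by omega
    rw [e]
    push_cast
    rfl

theorem tuples_ae : ∀ᵐ a ∂law, ∀ (g : ℕ) (h : Fin g → ℕ), Function.Injective h →
    ∃ S : ℝ, 0 ≤ S ∧ Tendsto (seriesT h) atTop (𝓝 S) ∧ (0 < S ↔ ∀ p : Nat.Primes, nuT h p < (p : ℕ)) ∧
      ∀ δ : ℝ, 0 < δ → ∀ U : ℕ, ∀ᶠ y : ℕ in atTop, ∀ H : ℕ, (y : ℝ) ^ δ ≤ H →
        |(countT a h y H : ℝ) - S * mainT' h y H| ≤ H / Real.log ((y : ℝ) + H) ^ U := by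
  show ∀ᵐ a ∂Pool.Agent.W2helper64.RS.law, _
  rw [ae_all_iff]
  intro g
  rw [ae_all_iff]
  intro h
  by_cases hinj : Function.Injective h
  swap
  · exact Eventually.of_forall fun a h1 => absurd h1 hinj
  have hd : ∀ i, 0 < (tup h i).natDegree := fun i => (tup_facts h i).1
  have hl : ∀ i, 0 < (tup h i).leadingCoeff := fun i => (tup_facts h i).2
  have h1 : ∀ᵐ a ∂Pool.Agent.W2helper64.RS.law, ∀ K U : ℕ, ∀ S C : ℝ, 0 ≤ C → 0 ≤ S →
      (∀ᶠ z : ℕ in atTop, |Pool.Agent.W2helper64.BH.PP (tup h) a z / Pool.Agent.W2helper64.RS.V z ^ g - S| ≤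
        C * (z : ℝ) ^ (-(1 / 4) : ℝ)) →
      ∃ M : ℝ, ∀ᶠ x : ℕ in atTop, ∀ y : ℕ, y ≤ x ^ K →
        |(Pool.Agent.W2helper64.BH.cnt (sh (tup h) y) a x : ℝ) - S * Pool.Agent.W2helper64.BH.HH (sh (tup h) y) x| ≤
          M * ((x : ℝ) / Real.log x ^ U) := by
    rw [ae_all_iff]
    intro K
    rw [ae_all_iff]
    intro U
    exact ae_short (tup h) hd hl (tup_inj hinj) K U
  filter_upwards [h1, Pool.Agent.W2helper64.BH.ae_SS (tup h) (∑ i, (tup h i).natDegree + 1) (by omega) hd hl (by omega)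
    (tup_inj hinj)] with a h2 h3 _
  obtain ⟨S, hS0, hS1, hS2, C, hC, hrate⟩ := h3
  refine ⟨S, hS0, ?_, ?_, ?_⟩
  · refine hS1.congr fun z => ?_
    rw [← series_tup h a z, series_eq]
  · rw [hS2]
    refine forall_congr' fun p => ?_
    rw [← nu_tup h a p, Pool.Agent.W2helper64.BH.nuB_eq]
    have : Pool.Agent.W2helper64.BH.nuR (tup h) (p : ℕ) (a p) = nu (tup h) a p := by
      unfold nu Pool.Agent.W2helper64.BH.nuR
      congr 1
      ext m
      rw [Pool.Agent.W2helper64.RK.mf', Pool.Agent.W2helper64.RK.mf', Pool.Agent.W2helper64.BH.mem_Im]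
    rw [this]
  · intro δ hδ U
    obtain ⟨M, hM⟩ := h2 ⌈1 / δ⌉₊ (U + 1) S C hC hS0 hrate
    obtain ⟨x0, hx0⟩ := eventually_atTop.mp hM
    have hyδ : Tendsto (fun y : ℕ => (y : ℝ) ^ δ) atTop atTop :=
      (tendsto_rpow_atTop hδ).comp tendsto_natCast_atTop_atTop
    have hlog : Tendsto (fun y : ℕ => Real.log ((y : ℝ) ^ δ)) atTop atTop := Real.tendsto_log_atTop.comp hyδ
    filter_upwards [hyδ.eventually_ge_atTop ((x0 : ℝ) + 2), eventually_ge_atTop 8,
      hlog.eventually_ge_atTop (|M| * (2 + 1 / δ) ^ U), hlog.eventually_ge_atTop 1] with y hy1 hy8 hyM hyl H hH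
    have hy0 : (0 : ℝ) < y := by exact_mod_cast (by omega : 0 < y)
    have hHr : (x0 : ℝ) + 2 ≤ H := hy1.trans hH
    have hHx : x0 ≤ H := by
      have : (x0 : ℝ) ≤ H := by linarith
      exact_mod_cast this
    have hx00 : (0 : ℝ) ≤ x0 := Nat.cast_nonneg _
    have hH2 : (2 : ℝ) ≤ H := by linarith
    have hH0 : (0 : ℝ) < H := by linarith
    have h4 : (y : ℝ) ≤ (H : ℝ) ^ (1 / δ) := by
      have h5 := Real.rpow_le_rpow (by positivity) hH (by positivity : 0 ≤ 1 / δ)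
      rwa [← Real.rpow_mul hy0.le, mul_one_div_cancel hδ.ne', Real.rpow_one] at h5
    -- `y ≤ H ^ K`
    have hyK : y ≤ H ^ ⌈1 / δ⌉₊ := by
      have h6 : (H : ℝ) ^ (1 / δ) ≤ (H : ℝ) ^ ((⌈1 / δ⌉₊ : ℕ) : ℝ) :=
        Real.rpow_le_rpow_of_exponent_le (by linarith) (Nat.le_ceil _)
      rw [Real.rpow_natCast] at h6
      exact_mod_cast h4.trans h6
    have h7 := hx0 H hHx y hyK
    rw [countT_eq, mainT_eq' h y H hy8]
    refine h7.trans ?_
    -- the logarithms
    have hlH : Real.log ((y : ℝ) ^ δ) ≤ Real.log H := Real.log_le_log (by positivity) hH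
    have hlH1 : 1 ≤ Real.log (H : ℝ) := hyl.trans hlH
    have hlHM : |M| * (2 + 1 / δ) ^ U ≤ Real.log (H : ℝ) := hyM.trans hlH
    have hly : Real.log (y : ℝ) ≤ 1 / δ * Real.log H := by
      rw [← Real.log_rpow hH0]
      exact Real.log_le_log hy0 h4
    have hsum : Real.log ((y : ℝ) + H) ≤ (2 + 1 / δ) * Real.log H := by
      have e1 : (y : ℝ) + H ≤ 2 * (y * H) := by
        have : (1 : ℝ) ≤ y := by exact_mod_cast (by omega : 1 ≤ y)
        nlinarith
      have e2 : Real.log ((y : ℝ) + H) ≤ Real.log 2 + (Real.log y + Real.log H) := by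
        rw [← Real.log_mul hy0.ne' hH0.ne', ← Real.log_mul (by norm_num) (by positivity)]
        exact Real.log_le_log (by positivity) e1
      have e3 : Real.log 2 ≤ Real.log H := Real.log_le_log (by norm_num) hH2
      linarith
    have hpos : 0 < Real.log ((y : ℝ) + H) := Real.log_pos (by
      have : (1 : ℝ) ≤ y := by exact_mod_cast (by omega : 1 ≤ y)
      linarith)
    have h8 : Real.log ((y : ℝ) + H) ^ U ≤ (2 + 1 / δ) ^ U * Real.log H ^ U := by
      rw [← mul_pow]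
      exact pow_le_pow_left₀ hpos.le hsum U
    have hlH0 : 0 < Real.log (H : ℝ) := by linarith
    rw [mul_div_assoc', div_le_div_iff₀ (by positivity) (by positivity)]
    calc M * H * Real.log ((y : ℝ) + H) ^ U ≤ |M| * H * ((2 + 1 / δ) ^ U * Real.log H ^ U) := by
          gcongr
          exact le_abs_self M
      _ = H * (|M| * (2 + 1 / δ) ^ U) * Real.log H ^ U := by ring
      _ ≤ H * Real.log H * Real.log H ^ U := by gcongr
      _ = H * Real.log H ^ (U + 1) := by ring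

end Pool.Agent.W2helper14.SH
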