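import Pool.Agent.W2helper14.SH.D
import Pool.Agent.W2helper14.RB.Ap2

set_option autoImplicit false

/-!
Twins in short intervals.
-/

namespace Pool.Agent.W2helper14.SH

open Filter MeasureTheory Polynomial Topology Pool.Agent.W2helper14.RB

theorem tup_twin : tup ![0, 2] = fd 2 := by
  funext i
  fin_cases i
  · show X + C ((0 : ℕ) : ℤ) = X
    simp
  · show X + C ((2 : ℕ) : ℤ) = X + C ((2 : ℕ) : ℤ)
    rfl

theorem oddP_two : oddP 2 = 1 := by
  unfold oddP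
  have : (Nat.primeFactors 2).filter (fun p => 2 < p) = ∅ := by
    rw [Nat.Prime.primeFactors Nat.prime_two]
    decide
  rw [this, Finset.prod_empty]

theorem twin_series (a : (p : Nat.Primes) → ZMod (p : ℕ)) : Tendsto (seriesT ![0, 2]) atTop (𝓝 (2 * C2)) := by
  have h := series_fd_tendsto (d := 2) (dvd_refl 2) (by norm_num) a
  rw [oddP_two, mul_one, ← tup_twin] at h
  exact h.congr fun z => series_tup _ a z

/-- the number of the `y < n ≤ y + H` with `n, n + 2 ∈ R` -/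
noncomputable def twins (a : (p : Nat.Primes) → ZMod (p : ℕ)) (y H : ℕ) : ℕ :=
  {n : ℕ | y < n ∧ n ≤ y + H ∧ n ∈ R a ∧ n + 2 ∈ R a}.ncard

theorem twins_eq (a : (p : Nat.Primes) → ZMod (p : ℕ)) (y H : ℕ) : twins a y H = countT a ![0, 2] y H := by
  unfold twins countT
  congr 1
  ext n
  simp only [Set.mem_ofPred_eq, Fin.forall_fin_two, Matrix.cons_val_zero, Matrix.cons_val_one, add_zero]

theorem mainT_twin (y H : ℕ) : mainT' ![0, 2] y H =
    ∑ n ∈ Finset.Ioc y (y + H), 1 / (Real.log n * Real.log ((n : ℝ) + 2)) := by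
  unfold mainT'
  refine Finset.sum_congr rfl fun n _ => ?_
  rw [Fin.prod_univ_two, one_div_mul_one_div]
  simp

theorem short_ae : ∀ᵐ a ∂law,
    (∀ δ : ℝ, 0 < δ → ∀ U : ℕ, ∀ᶠ y : ℕ in atTop, ∀ H : ℕ, (y : ℝ) ^ δ ≤ H →
      |(twins a y H : ℝ) - 2 * C2 * ∑ n ∈ Finset.Ioc y (y + H), 1 / (Real.log n * Real.log ((n : ℝ) + 2))| ≤
        H / Real.log ((y : ℝ) + H) ^ U) ∧
    ∀ (g : ℕ) (h : Fin g → ℕ), Function.Injective h →
      ∃ S : ℝ, 0 ≤ S ∧ Tendsto (seriesT h) atTop (𝓝 S) ∧ (0 < S ↔ ∀ p : Nat.Primes, nuT h p < (p : ℕ)) ∧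
        ∀ δ : ℝ, 0 < δ → ∀ U : ℕ, ∀ᶠ y : ℕ in atTop, ∀ H : ℕ, (y : ℝ) ^ δ ≤ H →
          |(countT a h y H : ℝ) - S * mainT' h y H| ≤ H / Real.log ((y : ℝ) + H) ^ U := by
  filter_upwards [tuples_ae] with a ha
  refine ⟨?_, ha⟩
  have hinj : Function.Injective (![0, 2] : Fin 2 → ℕ) := by
    intro i j hij
    fin_cases i <;> fin_cases j
    · rfl
    · exact absurd hij (by decide)
    · exact absurd hij (by decide)
    · rfl
  obtain ⟨S, -, h2, -, h4⟩ := ha 2 ![0, 2] hinj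
  have hS : S = 2 * C2 := tendsto_nhds_unique h2 (twin_series a)
  intro δ hδ U
  filter_upwards [h4 δ hδ U] with y hy H hH
  have := hy H hH
  rw [hS, ← twins_eq, mainT_twin] at this
  exact this

end Pool.Agent.W2helper14.SH
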